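import Pool.Agent.Lib.helper26.CXCol

namespace Pool.Agent.Results.MP_f5610a_lc.Anti
open Pool.Agent.Lib.CX

/-- no induced complement of a cycle of even length at least four -/
def EvenAntiholeFree {V : Type} (G : SimpleGraph V) : Prop :=
  ∀ n, 4 ≤ n → Even n → IsEmpty ((SimpleGraph.cycleGraph n)ᶜ ↪g G)

def vr (φ : List (T3 ℕ)) (j : ℕ) : List ℕ := (φ.getD j (0, 0, 0)).vars
def R (φ : List (T3 ℕ)) (u v : ℕ × ℕ) : Prop :=
  (u.1 = 0 ∧ v.1 = 1 ∧ u.2 = v.2) ∨ (u.1 = 2 ∧ v.1 = 1 ∧ u.2 = v.2) ∨ (3 ≤ u.1 ∧ 3 ≤ v.1) ∨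
    (u.1 = 0 ∧ v.1 = 3 ∧ u.2 ∈ vr φ v.2) ∨ (u.1 = 2 ∧ v.1 = 4 ∧ u.2 ∈ vr φ v.2)
instance (φ u v) : Decidable (R φ u v) := by unfold R; infer_instance
def vs (m : ℕ) : List (ℕ × ℕ) := [0, 1, 2] ×ˢ List.range (3 * m + 1) ++ [3, 4] ×ˢ List.range m
def es (φ : List (T3 ℕ)) : List ((ℕ × ℕ) × (ℕ × ℕ)) :=
  (vs φ.length ×ˢ vs φ.length).filter fun e => ¬ R φ e.1 e.2 ∧ ¬ R φ e.2 e.1

theorem mem_vs (m : ℕ) (v : ℕ × ℕ) : v ∈ vs m ↔ (v.1 ≤ 2 ∧ v.2 ≤ 3 * m) ∨ ((v.1 = 3 ∨ v.1 = 4) ∧ v.2 < m) := by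
  obtain ⟨a, b⟩ := v
  simp [vs]; omega

def S (u v : ℕ × ℕ) : Prop := ((u.1 = 0 ∨ u.1 = 2) ∧ v.1 = 1 ∨ u.1 = 1 ∧ (v.1 = 0 ∨ v.1 = 2)) ∧ u.2 = v.2 ∨
  (3 ≤ u.1 ∧ 3 ≤ v.1) ∨ u.1 = 0 ∧ v.1 = 3 ∨ u.1 = 2 ∧ v.1 = 4 ∨ u.1 = 3 ∧ v.1 = 0 ∨ u.1 = 4 ∧ v.1 = 2

theorem S_of {φ u v} (h : R φ u v ∨ R φ v u) : S u v := by
  unfold S
  rcases h with (h | h | h | ⟨a, b, -⟩ | ⟨a, b, -⟩) | h | h | h | ⟨a, b, -⟩ | ⟨a, b, -⟩ <;> omega

theorem S1 {a b c d e : ℕ × ℕ} (h0 : S a b) (h1 : S b c) (h2 : S c d) (h3 : S d e) (n0 : a ≠ c) (n1 : b ≠ d) (n2 : c ≠ e)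
    (n : a = e ∨ ¬ (3 ≤ a.1 ∧ 3 ≤ e.1)) (h : c.1 = 1) : False := by
  have p1 : (b.1 = 0 ∨ b.1 = 2) ∧ b.2 = c.2 := by unfold S at h1; clear n; omega
  have p2 : (d.1 = 0 ∨ d.1 = 2) ∧ c.2 = d.2 := by unfold S at h2; clear n p1; omega
  simp only [ne_eq, Prod.ext_iff] at n0 n1 n2 n
  have p0 : b.1 = 0 ∧ a.1 = 3 ∨ b.1 = 2 ∧ a.1 = 4 := by unfold S at h0; clear n p2 n1 n2; omega
  have p3 : d.1 = 0 ∧ e.1 = 3 ∨ d.1 = 2 ∧ e.1 = 4 := by unfold S at h3; clear n p1 n1 n0 p0; omega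
  clear n0 n2
  omega

theorem S2 {a b c : ℕ × ℕ} (h0 : S a b) (h1 : S b c) (n : ¬ (3 ≤ a.1 ∧ 3 ≤ c.1)) (ha : a.1 ≠ 1) (hb : b.1 ≠ 1)
    (hc : c.1 ≠ 1) : 3 ≤ b.1 := by
  have p0 : 3 ≤ a.1 ∨ 3 ≤ b.1 := by unfold S at h0; clear n; omega
  have p1 : 3 ≤ b.1 ∨ 3 ≤ c.1 := by unfold S at h1; clear n p0; omega
  omega

theorem adj (φ : List (T3 ℕ)) (u v : Fin (mkGr (vs φ.length) (es φ)).n) (h : u ≠ v) :
    (mkGr (vs φ.length) (es φ)).G.Adj u v ↔ ¬ (R φ (mkGrEquiv _ _ u).1 (mkGrEquiv _ _ v).1 ∨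
      R φ (mkGrEquiv _ _ v).1 (mkGrEquiv _ _ u).1) := by
  have h1 := mkGr_arc _ _ u v
  have h2 := mkGr_arc _ _ v u
  have h3 : (mkGrEquiv _ _ u).1 ∈ vs φ.length := (mkGrEquiv _ _ u).2
  have h4 : (mkGrEquiv _ _ v).1 ∈ vs φ.length := (mkGrEquiv _ _ v).2
  rw [Gr.G, SimpleGraph.fromRel_adj]
  rw [Gr.arc] at h1 h2
  rw [h1, h2]
  generalize (mkGrEquiv _ _ u).1 = p at *
  generalize (mkGrEquiv _ _ v).1 = q at *
  have : ∀ p ∈ vs φ.length, ∀ q ∈ vs φ.length, (p, q) ∈ es φ ↔ ¬ R φ p q ∧ ¬ R φ q p := fun p hp q hq => by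
    simp [es, hp, hq]
  rw [this p h3 q h4, this q h4 p h3]
  exact ⟨fun h => by rcases h.2 with h | h <;> simp [h], fun h' => ⟨h, .inl (not_or.1 h')⟩⟩

theorem free (φ : List (T3 ℕ)) : EvenAntiholeFree (mkGr (vs φ.length) (es φ)).G := by
  refine fun n hn he => ⟨fun e => ?_⟩
  obtain ⟨n, rfl⟩ : ∃ k, n = k + 4 := ⟨n - 4, by omega⟩
  obtain ⟨e', key⟩ : ∃ e' : Fin (n + 4) → ℕ × ℕ, ∀ i j : Fin (n + 4), i ≠ j → e' i ≠ e' j ∧
      ((SimpleGraph.cycleGraph (n + 4)).Adj i j ↔ R φ (e' i) (e' j) ∨ R φ (e' j) (e' i)) := by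
    refine ⟨fun i => (mkGrEquiv _ _ (e i)).1, fun i j h => ?_⟩
    have h1 := e.injective.ne h
    refine ⟨fun h' => h1 ((mkGrEquiv _ _).injective (Subtype.ext h')), not_iff_not.1 ?_⟩
    rw [← adj φ _ _ h1, e.map_rel_iff]
    simp [h]
  let g : ℕ → ℕ × ℕ := fun k => e' (Fin.ofNat _ k)
  have hd : ∀ k d, d < n + 4 → Fin.ofNat (n + 4) (k + d) - Fin.ofNat (n + 4) k = Fin.ofNat (n + 4) d := fun k d _ => by
    rw [sub_eq_iff_eq_add]; ext; simp [Fin.val_add, add_comm]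
  have hne : ∀ k d, 0 < d → d < n + 4 → Fin.ofNat (n + 4) k ≠ Fin.ofNat (n + 4) (k + d) := fun k d h0 h h' => by
    have := hd k d h
    rw [← h', sub_self] at this
    have := congrArg Fin.val this
    simp [Nat.mod_eq_of_lt h] at this
    omega
  have hadj : ∀ k d, d < n + 4 → ((SimpleGraph.cycleGraph (n + 4)).Adj (Fin.ofNat _ k) (Fin.ofNat _ (k + d)) ↔
      d = 1 ∨ d = n + 3) := fun k d h => by
    rw [SimpleGraph.cycleGraph_adj, ← neg_sub, hd k d h, neg_eq_iff_eq_neg, Fin.ext_iff, Fin.ext_iff]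
    simp [Nat.mod_eq_of_lt h, Fin.val_neg']
    omega
  have h1 : ∀ k, R φ (g k) (g (k + 1)) ∨ R φ (g (k + 1)) (g k) := fun k =>
    (key _ _ (hne k 1 (by omega) (by omega))).2.1 ((hadj k 1 (by omega)).2 (.inl rfl))
  have h2 : ∀ k, g k ≠ g (k + 2) ∧ ¬ (3 ≤ (g k).1 ∧ 3 ≤ (g (k + 2)).1) := fun k => by
    have := key _ _ (hne k 2 (by omega) (by omega))
    exact ⟨this.1, fun h => by have := (hadj k 2 (by omega)).1 (this.2.2 (.inl (.inr (.inr (.inl h))))); omega⟩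
  have h4 : ∀ k, g k = g (k + 4) ∨ ¬ (3 ≤ (g k).1 ∧ 3 ≤ (g (k + 4)).1) := fun k => by
    rcases Nat.eq_zero_or_pos n with rfl | h
    · left; simp only [g]; congr 1; ext; simp
    · have := key _ _ (hne k 4 (by omega) (by omega))
      refine .inr fun h => ?_
      have := (hadj k 4 (by omega)).1 (this.2.2 (.inl (.inr (.inr (.inl h)))))
      obtain ⟨r, hr⟩ := he
      omega
  have h1' : ∀ k, S (g k) (g (k + 1)) := fun k => S_of (h1 k)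
  have hb : ∀ k, (g (k + 2)).1 ≠ 1 := fun k h =>
    S1 (h1' k) (h1' (k + 1)) (h1' (k + 2)) (h1' (k + 3)) (h2 k).1 (h2 (k + 1)).1 (h2 (k + 2)).1 (h4 k) h
  have hb' : ∀ k, 3 ≤ (g (k + 3)).1 := fun k =>
    S2 (h1' (k + 2)) (h1' (k + 3)) (h2 (k + 2)).2 (hb k) (hb (k + 1)) (hb (k + 2))
  exact (h2 3).2 ⟨hb' 0, hb' 2⟩

theorem key (φ : List (T3 ℕ)) (hφ : ∀ C ∈ φ, C.dist ∧ ∀ x ∈ C.vars, x < 3 * φ.length) :
    SatR nae φ ↔ (mkGr (vs φ.length) (es φ)).G.Colorable (2 * (3 * φ.length + 1)) := by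
  rw [mkGr_colorable]
  have hcl : ∀ j < φ.length, φ.getD j (0, 0, 0) ∈ φ := fun j hj => by
    rw [List.getD_eq_getElem _ _ hj]; exact List.getElem_mem _
  constructor
  · rintro ⟨v, hv⟩
    have : ∀ (b : Bool) j, ∃ x, j < φ.length → x ∈ vr φ j ∧ v x = b ∧ x < 3 * φ.length := fun b j => by
      by_cases hj : j < φ.length
      · have h1 := hv _ (hcl j hj)
        have h2 := (hφ _ (hcl j hj)).2
        by_contra h
        push Not at h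
        have h3 : ∀ x ∈ vr φ j, v x = !b := fun x hx => by
          by_contra h4
          exact ((h x).2 hx (by simpa using h4)).not_gt (h2 x hx)
        simp only [vr, T3.vars, List.forall_mem_cons] at h3
        rw [h3.1, h3.2.1, h3.2.2.1] at h1
        simp [nae] at h1
      · exact ⟨0, fun h => (hj h).elim⟩
    choose w hw using this
    let c : ℕ × ℕ → ℕ := fun u => if u.1 = 0 then 2 * u.2 else if u.1 = 1 then 2 * u.2 + (v u.2).toNat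
      else if u.1 = 2 then 2 * u.2 + 1 else if u.1 = 3 then 2 * w true u.2 else 2 * w false u.2 + 1
    have hc : ∀ u ∈ vs φ.length, ∃ x ≤ 3 * φ.length, (c u = 2 * x ∧ (u = (0, x) ∨ (u = (1, x) ∧ v x = false) ∨
        (u.1 = 3 ∧ x ∈ vr φ u.2 ∧ v x = true))) ∨ (c u = 2 * x + 1 ∧ (u = (2, x) ∨ (u = (1, x) ∧ v x = true) ∨
        (u.1 = 4 ∧ x ∈ vr φ u.2 ∧ v x = false))) := by
      rintro ⟨a, b⟩ h
      rcases (mem_vs ..).1 h with ⟨h1, h2⟩ | ⟨rfl | rfl, h2⟩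
      · refine ⟨b, h2, ?_⟩
        dsimp only at h1
        interval_cases a
        · simp [c]
        · cases h : v b <;> simp [c, h]
        · simp [c]
      · exact ⟨w true b, (hw _ b h2).2.2.le, .inl ⟨rfl, .inr (.inr ⟨rfl, (hw _ b h2).1, (hw _ b h2).2.1⟩)⟩⟩
      · exact ⟨w false b, (hw _ b h2).2.2.le, .inr ⟨rfl, .inr (.inr ⟨rfl, (hw _ b h2).1, (hw _ b h2).2.1⟩)⟩⟩
    refine ⟨fun u => Fin.ofNat _ (c u), fun ⟨p, q⟩ he h1 h2 h3 h4 => ?_⟩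
    obtain ⟨x, hx, h5⟩ := hc p h1
    obtain ⟨y, hy, h6⟩ := hc q h2
    have h7 : c p = c q := by
      have := congrArg Fin.val h4
      simp only [Fin.val_ofNat] at this
      rwa [Nat.mod_eq_of_lt (by omega), Nat.mod_eq_of_lt (by omega)] at this
    obtain rfl : x = y := by omega
    simp only [es, List.mem_filter, decide_eq_true_eq] at he
    have h8 := he.2
    clear he hc hw h4 h1 h2 hv hcl hφ
    rcases h5 with ⟨a, h5⟩ | ⟨a, h5⟩ <;> rcases h6 with ⟨b, h6⟩ | ⟨b, h6⟩ <;> try omega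
    all_goals
      clear a b h7
      rcases h5 with rfl | ⟨rfl, h5⟩ | h5 <;> rcases h6 with rfl | ⟨rfl, h6⟩ | h6 <;> simp_all [R]
  · rintro ⟨c, hc⟩
    have h1 : ∀ p ∈ vs φ.length, ∀ q ∈ vs φ.length, c p = c q → p = q ∨ R φ p q ∨ R φ q p := fun p hp q hq h => by
      by_contra h'
      push Not at h'
      exact hc (p, q) (by simp [es, hp, hq, h'.2]) hp hq h'.1 h
    have h2 : ∀ p, ∃ x ≤ 3 * φ.length, c p = c (0, x) ∨ c p = c (2, x) := fun p => by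
      let f : Fin 2 × Fin (3 * φ.length + 1) → Fin (2 * (3 * φ.length + 1)) := fun y => c (2 * y.1, y.2)
      have hf : Function.Injective f := fun y z h => by
        have := h1 _ ((mem_vs ..).2 (.inl (by omega))) _ ((mem_vs ..).2 (.inl (by omega))) h
        simp only [R, Prod.mk.injEq] at this
        ext <;> omega
      obtain ⟨⟨a, x⟩, h⟩ := ((Fintype.bijective_iff_injective_and_card f).2 ⟨hf, by simp⟩).2 (c p)
      refine ⟨x, by omega, ?_⟩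
      fin_cases a
      · exact .inl h.symm
      · exact .inr h.symm
    refine ⟨fun x => decide (c (1, x) ≠ c (0, x)), fun C hC => ?_⟩
    obtain ⟨j, hj, rfl⟩ := List.getElem_of_mem hC
    have e : vr φ j = φ[j].vars := by rw [vr, List.getD_eq_getElem _ _ hj]
    have m0 : ∀ a ≤ 2, ∀ x ≤ 3 * φ.length, (a, x) ∈ vs φ.length := fun a ha x hx => (mem_vs ..).2 (.inl ⟨ha, hx⟩)
    have m3 : (3, j) ∈ vs φ.length := (mem_vs ..).2 (.inr ⟨.inl rfl, hj⟩)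
    have m4 : (4, j) ∈ vs φ.length := (mem_vs ..).2 (.inr ⟨.inr rfl, hj⟩)
    have p : ∃ x ∈ φ[j].vars, c (1, x) ≠ c (0, x) := by
      obtain ⟨x, hx, h | h⟩ := h2 (3, j)
      · refine ⟨x, by simpa [R, e] using h1 _ m3 _ (m0 _ (by simp) x hx) h, fun h' => ?_⟩
        simpa [R] using h1 _ m3 _ (m0 1 (by simp) x hx) (h.trans h'.symm)
      · simpa [R] using h1 _ m3 _ (m0 _ (by simp) x hx) h
    have q : ∃ x ∈ φ[j].vars, c (1, x) = c (0, x) := by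
      obtain ⟨x, hx, h | h⟩ := h2 (4, j)
      · simpa [R] using h1 _ m4 _ (m0 _ (by simp) x hx) h
      · refine ⟨x, by simpa [R, e] using h1 _ m4 _ (m0 _ (by simp) x hx) h, ?_⟩
        obtain ⟨y, hy, h' | h'⟩ := h2 (1, x)
        · obtain rfl : y = x := by simpa [R] using h1 _ (m0 _ (by simp) y hy) _ (m0 _ (by simp) x hx) h'.symm
          exact h'
        · obtain rfl : y = x := by simpa [R] using h1 _ (m0 _ (by simp) y hy) _ (m0 _ (by simp) x hx) h'.symm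
          simpa [R] using h1 _ m4 _ (m0 1 (by simp) y hx) (h.trans h'.symm)
    simp only [T3.vars, List.mem_cons, List.not_mem_nil, or_false, exists_eq_or_imp, exists_eq_left] at p q
    simp only [nae]
    by_cases a : c (1, φ[j].1) = c (0, φ[j].1) <;> by_cases b : c (1, φ[j].2.1) = c (0, φ[j].2.1) <;>
      by_cases d : c (1, φ[j].2.2) = c (0, φ[j].2.2) <;> simp_all

set_option synthInstance.maxSize 2000 in
theorem result : NPComplete fun a : {a : Gr × ℕ // EvenAntiholeFree a.1.G} => a.1.1.G.Colorable a.1.2 := by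
  refine ⟨col_NP.red ⟨fun a => a.1, by fun_prop, fun _ => Iff.rfl⟩, ?_⟩
  have h1 : PT fun φ : List (T3 ℕ) => vs φ.length := by unfold vs; fun_prop
  have h2 : PT fun p : List (T3 ℕ) × ℕ => vr p.1 p.2 := by unfold vr T3.vars; fun_prop
  have h3 : PT es := by unfold es R; fun_prop
  have hf : PT fun φ : List (T3 ℕ) => (mkGr (vs φ.length) (es φ), 2 * (3 * φ.length + 1)) := by fun_prop
  exact NPHard.of_nae (fun φ => ⟨_, free φ⟩) (PT.subtype hf free) key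

end Pool.Agent.Results.MP_f5610a_lc.Anti
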